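import Pool.Agent.Helper34.PU.Goals

/-!
MP_8060f4_co : packet EMBED.
-/

set_option autoImplicit false

open Finset Function
open scoped Classical

namespace Pool.Agent.Helper19.PU

open Pool.Agent.Helper34.PU

theorem embed (h1 : NestStmt) (h2 : GreedyStmt) (h3 : SlotStmt) (h4 : TogStmt) : EmbedStmt := by
  intro Δ β s K r δ ε hs hsβ hK hδ hε
  set T0 : ℕ := K ^ 2 * β ^ 2 + 1 with hT0
  set h : ℕ := Fintype.card (Idx T0 β) with hh
  obtain ⟨M0, hM0⟩ := h1 (T0 + h) (2 * K * (Δ + 1)) (δ / 2 ^ (T0 + h)) ε (by positivity) hε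
  refine ⟨M0 + 1, ?_⟩
  intro D hD T N Q x f c κ q hf hκ hq hcell hnum n M1 H hdeg hcov hKM hn
  obtain ⟨en, 𝓖, hloc, hcard, htemp⟩ := h4 β s T0 r T D N Q δ x f c κ q (by omega) hδ hκ hcell hnum
  obtain ⟨G, hG, hGl⟩ := hM0 (2 * D) (by omega) 𝓖 (by
    refine le_trans (le_of_eq ?_) hcard
    change δ / 2 ^ (T0 + h) * ((2 * D : ℕ) : ℝ) ^ (T0 + h) = δ * (D : ℝ) ^ (T0 + h)
    push_cast
    rw [mul_pow]
    field_simp)
  obtain ⟨E, Y, iE, iY, slot, typ, e, hfib, hv, hw, hv', hw', hint, hload, hdist⟩ :=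
    h3 n Δ β s K H hdeg hs hsβ hK hcov
  have hmem : ∀ (v : Fin n) (j : Fin (T0 + h)),
      j ∈ (typ v).1.map (Fin.castAddEmb h) ↔ ∃ j0 ∈ (typ v).1, Fin.castAdd h j0 = j := by
    intro v j
    simp [Finset.mem_map]
  have hmem' : ∀ (v : Fin n) (j0 : Fin T0),
      Fin.castAdd h j0 ∈ (typ v).1.map (Fin.castAddEmb h) ↔ j0 ∈ (typ v).1 := by
    intro v j0
    rw [hmem]
    constructor
    · rintro ⟨j1, h5, h6⟩
      rwa [← Fin.castAdd_injective _ _ h6]
    · intro h5
      exact ⟨j0, h5, rfl⟩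
  have hact : ∀ v w : Fin n, (typ v).1.map (Fin.castAddEmb h) = (typ w).1.map (Fin.castAddEmb h) →
      typ v = typ w := by
    intro v w hvw
    exact Subtype.ext (Finset.map_injective _ hvw)
  obtain ⟨b, hb1, hb2⟩ := h2 (T0 + h) (2 * D) (2 * K * (Δ + 1)) K M1 β _ G hG hKM E Y (Fin n) slot
    (fun v => e v v) (fun v => (typ v).1.map (Fin.castAddEmb h)) hfib
    (by
      intro v
      rw [Finset.card_map]
      exact (typ v).2)
    (by simpa using hn)
    (by
      intro j y
      refine Fin.addCases (fun j0 => ?_) (fun j0 => ?_) j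
      · simp only [hmem']
        exact hload j0 y
      · rw [Finset.filter_false_of_mem]
        · simp
        · rintro v - ⟨h5, -⟩
          rw [hmem] at h5
          obtain ⟨j1, -, h6⟩ := h5
          have h7 := congrArg Fin.val h6
          simp at h7
          have := j1.2
          omega)
    (by
      intro j v w hvw hj hac
      rw [hmem] at hj
      obtain ⟨j0, hj0, rfl⟩ := hj
      exact hdist j0 v w hvw hj0 (hact v w hac))
  rw [hGl] at hb1
  choose φ hφ1 hφ2 using fun ed => htemp _ (hb1 ed)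
  -- the vertex of the host assigned to `v`
  set y : Fin n → Fin N := fun v => en (typ v) (φ (e v v))
    (b (Fin.natAdd T0 (Fintype.equivFin (Idx T0 β) (typ v)))
      (slot (Fin.natAdd T0 (Fintype.equivFin (Idx T0 β) (typ v))) (e v v))) with hy
  have hxy : ∀ v, ∀ j ∈ (typ v).1, x (y v) (κ j) = φ (e v v) j := by
    intro v j hj
    exact (hφ2 (e v v)).1 (typ v) j hj
  -- the template of the edge sees the vertices at both ends
  have hend : ∀ v (ed : E), (∀ j ∈ (typ v).1, slot (Fin.castAdd _ j) ed =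
      slot (Fin.castAdd _ j) (e v v)) →
      slot (Fin.natAdd _ (Fintype.equivFin _ (typ v))) ed =
        slot (Fin.natAdd _ (Fintype.equivFin _ (typ v))) (e v v) →
      (∀ j ∈ (typ v).1, φ ed j = φ (e v v) j) ∧
      y v = en (typ v) (φ ed) (b (Fin.natAdd T0 (Fintype.equivFin (Idx T0 β) (typ v)))
        (slot (Fin.natAdd T0 (Fintype.equivFin (Idx T0 β) (typ v))) ed)) := by
    intro v ed h5 h6
    have h7 : ∀ j ∈ (typ v).1, φ ed j = φ (e v v) j := by
      intro j hj
      apply Fin.ext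
      rw [hφ1 ed j, hφ1 (e v v) j, h5 j hj]
    refine ⟨h7, ?_⟩
    rw [hy]
    simp only
    rw [h6]
    apply hloc
    intro j hj
    exact (h7 j hj).symm
  refine ⟨fun v => (q (typ v), y v), ?_, ?_⟩
  · intro v w hvw
    by_contra hne
    simp only [Prod.mk.injEq] at hvw
    have ht : typ v = typ w := hq hvw.1
    obtain ⟨j, hj, hjne⟩ := hb2 v w hne (by rw [ht])
    rw [hmem] at hj
    obtain ⟨j0, hj0, rfl⟩ := hj
    apply hjne
    apply Fin.ext
    rw [← hφ1 (e v v) j0, ← hφ1 (e w w) j0, ← hxy v j0 hj0, ← hxy w j0 (by rw [← ht]; exact hj0),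
      hvw.2]
  · intro v w hvw
    obtain ⟨h5, h6⟩ := hend v (e v w) (hv v w hvw) (hv' v w hvw)
    obtain ⟨h7, h8⟩ := hend w (e v w) (hw v w hvw) (hw' v w hvw)
    refine ⟨?_, ?_, ((typ v).1 ∩ (typ w).1).image κ, ?_, ?_⟩
    · change f (q (typ v), y v) (q (typ w), y w) = c
      rw [h6, h8]
      exact (hφ2 (e v w)).2 (typ v) (typ w) (hint v w hvw)
    · intro h9
      have h10 : typ v = typ w := hq h9
      have h11 := hint v w hvw
      rw [h10, Finset.inter_self, (typ w).2] at h11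
      omega
    · rw [Finset.card_image_of_injective _ hκ]
      exact hint v w hvw
    · intro t ht
      rw [Finset.mem_image] at ht
      obtain ⟨j, hj, rfl⟩ := ht
      rw [Finset.mem_inter] at hj
      change x (y v) (κ j) = x (y w) (κ j)
      rw [hxy v j hj.1, hxy w j hj.2, ← h5 j hj.1, ← h7 j hj.2]

end Pool.Agent.Helper19.PU
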